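import Mathlib
import Pool.Agent.X332.OR.Curve
import Pool.Agent.TH143.GE.Iff
import Pool.Agent.TH143.GE.Tow1
import Pool.Agent.Y719.LC.GO
import Pool.Agent.Y719.LC.Ent

/-!
Towers of fields of sequences over orbits on curves, and varieties without curves of genus at most
one.
-/

set_option autoImplicit false

namespace Pool.Agent.X332.TO

open MvPolynomial Filter Pool.Agent.TH143.DE Pool.Agent.TH143.HE Pool.Agent.TH143.TW
  Pool.Agent.TH143.GE Pool.Agent.X332.OR Pool.Agent.Y719.LC
open Pool.Agent.TH143.EL (HolMap InV Rep TorusMapsIn ratCurves_of_torus)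
open scoped LinearAlgebra.Projectivization

variable {N : ℕ} {R : Type} [CommRing R] {φ : R →+* ℂ}
  {I I' : Ideal (MvPolynomial (Fin (N + 1)) R)} {B : Subalgebra ℂ (ℕ → ℂ)}

/-- the elements of the field of coefficients satisfy linear recurrences of order one -/
theorem linRec_of_mem (hB : CoefField B) {f : ℕ → ℂ} (hf : f ∈ B) : LinRec B f := by
  rcases hB.dich f hf with h0 | h0
  · refine ⟨0, fun _ _ => 1, fun _ => B.one_mem, ⟨0, le_rfl, fun h => ?_⟩, ?_⟩
    · obtain ⟨m, hm⟩ := h.exists
      exact one_ne_zero hm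
    · filter_upwards [h0] with m hm
      rw [Finset.sum_range_one, one_mul, Nat.add_zero]
      exact hm
  · refine ⟨1, fun k m => if k = 0 then f (m + 1) else - f m, fun k => ?_, ⟨1, le_rfl, fun h => ?_⟩,
      Eventually.of_forall fun m => ?_⟩
    · by_cases hk : k = 0
      · simp only [if_pos hk]
        exact hB.shift f hf
      · simp only [if_neg hk]
        exact B.neg_mem hf
    · obtain ⟨m, h1, h2⟩ := (h.and h0).exists
      have h3 : (if (1 : ℕ) = 0 then f (m + 1) else - f m) = 0 := h1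
      rw [if_neg one_ne_zero] at h3
      exact h2 (neg_eq_zero.1 h3)
    · rw [Finset.sum_range_succ, Finset.sum_range_one]
      show (if (0 : ℕ) = 0 then f (m + 1) else - f m) * f m +
        (if (1 : ℕ) = 0 then f (m + 1) else - f m) * f (m + 1) = 0
      rw [if_pos rfl, if_neg one_ne_zero, neg_mul, mul_comm (f m), add_neg_cancel]

/-- the field of the rational functions along an orbit is finitely generated -/
theorem finGen_coef {D : ℕ} {𝔱 : Ideal (MvPolynomial (Fin D) ℂ)} {t : ℕ → Fin D → ℂ}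
    (h : Orbit 𝔱 t) : FinGen (coef h) := by
  have hmem : ∀ P : MvPolynomial (Fin D) ℂ, (fun m => eval (t m) P) ∈
      Algebra.adjoin ℂ (Set.range fun i : Fin D => (fun m => t m i : ℕ → ℂ)) := by
    intro P
    have h1 : (fun m => eval (t m) P) = aeval (fun i => (fun m => t m i : ℕ → ℂ)) P := by
      funext m
      have h7 := MvPolynomial.comp_aeval_apply (f := fun i => (fun m => t m i : ℕ → ℂ))
        (Pi.evalAlgHom ℂ (fun _ : ℕ => ℂ) m) P
      have h8 : (Pi.evalAlgHom ℂ (fun _ : ℕ => ℂ) m)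
          (aeval (fun i => (fun m => t m i : ℕ → ℂ)) P) =
          (aeval (fun i => (fun m => t m i : ℕ → ℂ)) P : ℕ → ℂ) m := rfl
      rw [← h8, h7, MvPolynomial.aeval_eq_eval]
      rfl
    rw [h1, MvPolynomial.aeval_def]
    have h2 := MvPolynomial.aeval_range (R := ℂ) (fun i : Fin D => (fun m => t m i : ℕ → ℂ))
    exact Algebra.adjoin_range_eq_range_aeval ℂ (fun i : Fin D => (fun m => t m i : ℕ → ℂ)) ▸ ⟨P, rfl⟩
  refine ⟨Set.range fun i : Fin D => (fun m => t m i : ℕ → ℂ), Set.finite_range _, ?_, ?_⟩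
  · rintro _ ⟨i, rfl⟩
    have h1 := poly_mem h (X i)
    simp only [eval_X] at h1
    exact h1
  · rintro b ⟨P, Q, hQ, hb⟩
    refine ⟨_, hmem P, _, hmem Q, h.ev_ne hQ, ?_⟩
    filter_upwards [hb, h.ev_ne hQ] with m h1 h2
    rw [h1, div_mul_cancel₀ _ h2]

end Pool.Agent.X332.TO
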